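import Pool.Agent.Helper63.WO.Defs
import Pool.Agent.Helper66.RT.Num9

/-!
# Windows off zero: numerical bounds for the gain of the Montgomery-Taylor transform
-/

set_option autoImplicit false

open MeasureTheory Set Filter Topology
open Pool.Agent.Helper66.RT
open Pool.Agent.Helper63.WO

namespace Pool.Agent.Helper96.WO

/-! ### Taylor bounds -/

private lemma nonneg_of_deriv {f f' : ℝ → ℝ} (hd : ∀ x, HasDerivAt f (f' x) x) (h0 : f 0 = 0)
    (hf : ∀ x, 0 ≤ x → 0 ≤ f' x) {x : ℝ} (hx : 0 ≤ x) : 0 ≤ f x := by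
  have hm : MonotoneOn f (Ici 0) := by
    apply monotoneOn_of_deriv_nonneg (convex_Ici 0)
    · exact fun x _ => (hd x).continuousAt.continuousWithinAt
    · exact fun x _ => (hd x).differentiableAt.differentiableWithinAt
    · intro x hx
      rw [interior_Ici] at hx
      rw [(hd x).deriv]
      exact hf x (le_of_lt hx)
  have := hm self_mem_Ici hx hx
  rw [h0] at this
  exact this

private lemma cos_le4 {x : ℝ} (hx : 0 ≤ x) : Real.cos x ≤ 1 - x ^ 2 / 2 + x ^ 4 / 24 := by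
  have := nonneg_of_deriv (f := fun x => 1 - x ^ 2 / 2 + x ^ 4 / 24 - Real.cos x)
    (f' := fun x => -x + x ^ 3 / 6 + Real.sin x) (fun x => by
      have e1 := ((((hasDerivAt_pow 2 x).div_const 2).const_sub 1).add ((hasDerivAt_pow 4 x).div_const 24)).sub (Real.hasDerivAt_cos x)
      exact e1.congr_deriv (by simp; ring)) (by norm_num) (fun x hx => by
      have := Real.sin_ge_sub_cube hx
      linarith) hx
  linarith

private lemma sin_le5 {x : ℝ} (hx : 0 ≤ x) : Real.sin x ≤ x - x ^ 3 / 6 + x ^ 5 / 120 := by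
  have := nonneg_of_deriv (f := fun x => x - x ^ 3 / 6 + x ^ 5 / 120 - Real.sin x)
    (f' := fun x => 1 - x ^ 2 / 2 + x ^ 4 / 24 - Real.cos x) (fun x => by
      have e1 := (((hasDerivAt_id x).sub ((hasDerivAt_pow 3 x).div_const 6)).add ((hasDerivAt_pow 5 x).div_const 120)).sub (Real.hasDerivAt_sin x)
      exact e1.congr_deriv (by simp; ring)) (by norm_num) (fun x hx => by
      have := cos_le4 hx
      linarith) hx
  linarith

private lemma cos_ge6 {x : ℝ} (hx : 0 ≤ x) : 1 - x ^ 2 / 2 + x ^ 4 / 24 - x ^ 6 / 720 ≤ Real.cos x := by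
  have := nonneg_of_deriv (f := fun x => Real.cos x - (1 - x ^ 2 / 2 + x ^ 4 / 24 - x ^ 6 / 720))
    (f' := fun x => x - x ^ 3 / 6 + x ^ 5 / 120 - Real.sin x) (fun x => by
      have e1 := (Real.hasDerivAt_cos x).sub (((((hasDerivAt_pow 2 x).div_const 2).const_sub 1).add ((hasDerivAt_pow 4 x).div_const 24)).sub ((hasDerivAt_pow 6 x).div_const 720))
      exact e1.congr_deriv (by simp; ring)) (by norm_num) (fun x hx => by
      have := sin_le5 hx
      linarith) hx
  linarith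

private lemma sin_ge7 {x : ℝ} (hx : 0 ≤ x) : x - x ^ 3 / 6 + x ^ 5 / 120 - x ^ 7 / 5040 ≤ Real.sin x := by
  have := nonneg_of_deriv (f := fun x => Real.sin x - (x - x ^ 3 / 6 + x ^ 5 / 120 - x ^ 7 / 5040))
    (f' := fun x => Real.cos x - (1 - x ^ 2 / 2 + x ^ 4 / 24 - x ^ 6 / 720)) (fun x => by
      have e1 := (Real.hasDerivAt_sin x).sub ((((hasDerivAt_id x).sub ((hasDerivAt_pow 3 x).div_const 6)).add ((hasDerivAt_pow 5 x).div_const 120)).sub ((hasDerivAt_pow 7 x).div_const 5040))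
      exact e1.congr_deriv (by simp; ring)) (by norm_num) (fun x hx => by
      have := cos_ge6 hx
      linarith) hx
  linarith

/-! ### the closed form, shifted by a quarter period -/

/-- `q = C - 1/2` -/
private lemma closed (d : ℝ) : (2 * (Real.pi * d) ^ 2 - 1) * Gam d =
    2 * (Real.pi * d) * (CMT - 1 / 2) * Real.cos (Real.pi * (d - 1 / 2)) + Real.sin (Real.pi * (d - 1 / 2)) := by
  have h := Gam_closed d
  have e1 : Real.pi * (d - 1 / 2) = Real.pi * d - Real.pi / 2 := by ring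
  rw [e1, Real.cos_sub_pi_div_two, Real.sin_sub_pi_div_two]
  linarith

/-- the transform at a point of `[1/2, 1]` -/
private lemma pt {d g : ℝ} (hd : 1 / 2 ≤ d) (hd1 : d ≤ 1) (hg : 0 ≤ g)
    (hc : 0 ≤ 1 - (3141593 / 1000000 * (d - 1 / 2)) ^ 2 / 2 + (3141593 / 1000000 * (d - 1 / 2)) ^ 4 / 24 -
      (3141593 / 1000000 * (d - 1 / 2)) ^ 6 / 720)
    (h : g * (2 * (3141593 / 1000000 * d) ^ 2 - 1) ≤ 2 * (3141592 / 1000000 * d) * (82749 / 100000) *
      (1 - (3141593 / 1000000 * (d - 1 / 2)) ^ 2 / 2 + (3141593 / 1000000 * (d - 1 / 2)) ^ 4 / 24 -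
      (3141593 / 1000000 * (d - 1 / 2)) ^ 6 / 720) + (3141592 / 1000000 * (d - 1 / 2) - (3141592 / 1000000 * (d - 1 / 2)) ^ 3 / 6 +
      (3141592 / 1000000 * (d - 1 / 2)) ^ 5 / 120 - (3141592 / 1000000 * (d - 1 / 2)) ^ 7 / 5040)) : g ≤ Gam d := by
  have p1 := Real.pi_gt_d6
  have p2 := Real.pi_lt_d6
  have hp := Real.pi_pos
  obtain ⟨s, hs⟩ : ∃ s, s = d - 1 / 2 := ⟨_, rfl⟩
  have hs0 : 0 ≤ s := by rw [hs]; linarith
  have hs1 : s ≤ 1 / 2 := by rw [hs]; linarith
  have k := closed d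
  rw [← hs] at hc h k
  have c1 : 1 - (3141593 / 1000000 * s) ^ 2 / 2 + (3141593 / 1000000 * s) ^ 4 / 24 - (3141593 / 1000000 * s) ^ 6 / 720 ≤
      Real.cos (Real.pi * s) := by
    refine (cos_ge6 (by positivity)).trans ?_
    refine Real.cos_le_cos_of_nonneg_of_le_pi (by positivity) ?_ ?_
    · nlinarith
    · exact mul_le_mul_of_nonneg_right (by linarith) hs0
  have s1 : 3141592 / 1000000 * s - (3141592 / 1000000 * s) ^ 3 / 6 + (3141592 / 1000000 * s) ^ 5 / 120 -
      (3141592 / 1000000 * s) ^ 7 / 5040 ≤ Real.sin (Real.pi * s) := by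
    refine (sin_ge7 (by positivity)).trans ?_
    refine Real.sin_le_sin_of_le_of_le_pi_div_two ?_ ?_ ?_
    · have : 0 ≤ 3141592 / 1000000 * s := by positivity
      linarith
    · nlinarith
    · exact mul_le_mul_of_nonneg_right (by linarith) hs0
  have hq := q_lo9
  have hd0 : 0 ≤ d := by linarith
  have g1 : 2 * (3141592 / 1000000 * d) * (82749 / 100000) *
      (1 - (3141593 / 1000000 * s) ^ 2 / 2 + (3141593 / 1000000 * s) ^ 4 / 24 - (3141593 / 1000000 * s) ^ 6 / 720) ≤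
      2 * (Real.pi * d) * (CMT - 1 / 2) * Real.cos (Real.pi * s) := by
    have a1 : 2 * (3141592 / 1000000 * d) * (82749 / 100000) ≤ 2 * (Real.pi * d) * (CMT - 1 / 2) := by
      have : 3141592 / 1000000 * d ≤ Real.pi * d := mul_le_mul_of_nonneg_right (by linarith) hd0
      exact mul_le_mul (by linarith) hq (by norm_num) (by positivity)
    exact mul_le_mul a1 c1 hc (by
      have : 0 ≤ CMT - 1 / 2 := le_trans (by norm_num) hq
      positivity)
  have g2 : (Real.pi * d) ^ 2 ≤ (3141593 / 1000000 * d) ^ 2 :=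
    pow_le_pow_left₀ (by positivity) (mul_le_mul_of_nonneg_right (by linarith) hd0) 2
  have g3 : g * (2 * (Real.pi * d) ^ 2 - 1) ≤ g * (2 * (3141593 / 1000000 * d) ^ 2 - 1) :=
    mul_le_mul_of_nonneg_left (by linarith) hg
  have g4 : 0 < 2 * (Real.pi * d) ^ 2 - 1 := by
    have : (3 / 2 : ℝ) ^ 2 ≤ (Real.pi * d) ^ 2 := pow_le_pow_left₀ (by norm_num) (by nlinarith) 2
    linarith
  refine le_of_mul_le_mul_left ?_ g4
  linarith

/-- `Gam` is decreasing on `[0, 1]` -/
lemma Gam_anti1 {u v : ℝ} (hu : 0 ≤ u) (huv : u ≤ v) (hv : v ≤ 1) : Gam v ≤ Gam u := by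
  have hc := ph_cont
  have hpi := Real.pi_pos
  unfold Gam
  refine div_le_div_of_nonneg_right ?_ I0_pos.le
  refine intervalIntegral.integral_mono_on (by norm_num) (Continuous.intervalIntegrable (by fun_prop) _ _)
    (Continuous.intervalIntegrable (by fun_prop) _ _) fun x hx => ?_
  refine mul_le_mul_of_nonneg_left ?_ (ph_pos (box_abs hx)).le
  have e1 : Real.cos (2 * Real.pi * x * v) = Real.cos (2 * Real.pi * |x| * v) := by
    rw [← Real.cos_abs, abs_mul, abs_mul, abs_mul, abs_of_pos hpi, abs_of_nonneg (hu.trans huv)]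
    norm_num
  have e2 : Real.cos (2 * Real.pi * x * u) = Real.cos (2 * Real.pi * |x| * u) := by
    rw [← Real.cos_abs, abs_mul, abs_mul, abs_mul, abs_of_pos hpi, abs_of_nonneg hu]
    norm_num
  rw [e1, e2]
  have h1 : |x| ≤ 1 / 2 := box_abs hx
  have h2 : 0 ≤ |x| := abs_nonneg x
  refine Real.cos_le_cos_of_nonneg_of_le_pi (by positivity) ?_ (by gcongr)
  have h3 : 0 ≤ v := hu.trans huv
  calc 2 * Real.pi * |x| * v ≤ 2 * Real.pi * (1 / 2) * 1 := by gcongr
    _ ≤ Real.pi := by linarith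

/-- near zero -/
private lemma near0 (d : ℝ) : 1 - 153 / 100 * d ^ 2 ≤ Gam d := by
  refine le_trans ?_ (Gam_near d)
  have hq := q_hi9
  have p2 := Real.pi_lt_d6
  have hp := Real.pi_pos
  have h1 : Real.pi ^ 2 ≤ 9869607 / 1000000 := by nlinarith
  have h2 : (2 * Real.pi * d) ^ 2 / 2 * (CMT - 5 / 4) ≤ (2 * Real.pi * d) ^ 2 / 2 * (7751 / 100000) :=
    mul_le_mul_of_nonneg_left (by linarith) (by positivity)
  have h3 : (2 * Real.pi * d) ^ 2 / 2 = 2 * Real.pi ^ 2 * d ^ 2 := by ring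
  rw [h3] at h2 ⊢
  have h4 : Real.pi ^ 2 * d ^ 2 ≤ 9869607 / 1000000 * d ^ 2 := mul_le_mul_of_nonneg_right h1 (sq_nonneg d)
  nlinarith [sq_nonneg d]

/-- the gain grows with the transform -/
private lemma gain {f t : ℝ} (ht0 : 0 ≤ t) (ht : t ≤ 1 / 2) (h : t ≤ f) : 2 * t ^ 2 ≤ gg f := by
  have h1 := gg_ge f (t := t) (by rw [abs_of_nonneg ht0]; exact ht)
  nlinarith

private lemma gain' {f t : ℝ} (ht0 : 0 ≤ t) (ht : t ≤ 1 / 2) (h : t ≤ -f) : 2 * t ^ 2 ≤ gg f := by
  have h1 := gg_ge f (t := -t) (by rw [abs_neg, abs_of_nonneg ht0]; exact ht)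
  nlinarith

private lemma cell {d D F k l : ℝ} (h0 : 0 ≤ d) (hd : d ≤ D) (hD : D ≤ 1) (hF : F ≤ Gam D) (h1 : 0 ≤ F) (h2 : F ≤ 1 / 2)
    (hl : l ≤ d) (hk : 0 ≤ k) (h : 1 - 2 * F ^ 2 ≤ k * l) : 1 - gg (Gam d) ≤ k * d := by
  have a1 := gain h1 h2 (hF.trans (Gam_anti1 h0 hd hD))
  have a2 : k * l ≤ k * d := mul_le_mul_of_nonneg_left hl hk
  linarith

private lemma cell' {d D F k l : ℝ} (h0 : 0 ≤ d) (hd : d ≤ D) (hD : D ≤ 1) (hF : F ≤ Gam D)
    (hl : l ≤ d) (hk : 0 ≤ k) (h : 3 / 2 - 2 * F ≤ k * l) : 1 - gg (Gam d) ≤ k * d := by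
  have a1 := gg_pos (Gam d)
  have a3 := hF.trans (Gam_anti1 h0 hd hD)
  have a2 : k * l ≤ k * d := mul_le_mul_of_nonneg_left hl hk
  linarith

private lemma v706 : 799 / 2000 ≤ Gam (706 / 1000) := pt (by norm_num) (by norm_num) (by norm_num) (by norm_num) (by norm_num)
private lemma v756 : 419 / 1250 ≤ Gam (756 / 1000) := pt (by norm_num) (by norm_num) (by norm_num) (by norm_num) (by norm_num)
private lemma v791 : 2909 / 10000 ≤ Gam (791 / 1000) := pt (by norm_num) (by norm_num) (by norm_num) (by norm_num) (by norm_num)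
private lemma v820 : 2549 / 10000 ≤ Gam (820 / 1000) := pt (by norm_num) (by norm_num) (by norm_num) (by norm_num) (by norm_num)
private lemma v847 : 111 / 500 ≤ Gam (847 / 1000) := pt (by norm_num) (by norm_num) (by norm_num) (by norm_num) (by norm_num)
private lemma v878 : 463 / 2500 ≤ Gam (878 / 1000) := pt (by norm_num) (by norm_num) (by norm_num) (by norm_num) (by norm_num)
private lemma v925 : 1317 / 10000 ≤ Gam (925 / 1000) := pt (by norm_num) (by norm_num) (by norm_num) (by norm_num) (by norm_num)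
private lemma v565 : 5808 / 10000 ≤ Gam (565 / 1000) := pt (by norm_num) (by norm_num) (by norm_num) (by norm_num) (by norm_num)
private lemma v575 : 5682 / 10000 ≤ Gam (575 / 1000) := pt (by norm_num) (by norm_num) (by norm_num) (by norm_num) (by norm_num)
private lemma v583 : 5577 / 10000 ≤ Gam (7 / 12) := pt (by norm_num) (by norm_num) (by norm_num) (by norm_num) (by norm_num)

/-- inner gaps -/
theorem num_a {d : ℝ} (h0 : 0 ≤ d) (_h1 : d ≤ 3 / 2) : 1 - gg (Gam d) ≤ 11 / 10 * d := by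
  rcases le_total d (62 / 100) with h | h
  · have a1 := gg_pos (Gam d)
    have a2 := near0 d
    nlinarith
  rcases le_total d (706 / 1000) with h2 | h2
  · exact cell h0 h2 (by norm_num) v706 (by norm_num) (by norm_num) h (by norm_num) (by norm_num)
  rcases le_total d (756 / 1000) with h3 | h3
  · exact cell h0 h3 (by norm_num) v756 (by norm_num) (by norm_num) h2 (by norm_num) (by norm_num)
  rcases le_total d (791 / 1000) with h4 | h4
  · exact cell h0 h4 (by norm_num) v791 (by norm_num) (by norm_num) h3 (by norm_num) (by norm_num)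
  rcases le_total d (820 / 1000) with h5 | h5
  · exact cell h0 h5 (by norm_num) v820 (by norm_num) (by norm_num) h4 (by norm_num) (by norm_num)
  rcases le_total d (847 / 1000) with h6 | h6
  · exact cell h0 h6 (by norm_num) v847 (by norm_num) (by norm_num) h5 (by norm_num) (by norm_num)
  rcases le_total d (878 / 1000) with h7 | h7
  · exact cell h0 h7 (by norm_num) v878 (by norm_num) (by norm_num) h6 (by norm_num) (by norm_num)
  rcases le_total d (925 / 1000) with h8 | h8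
  · exact cell h0 h8 (by norm_num) v925 (by norm_num) (by norm_num) h7 (by norm_num) (by norm_num)
  have := gg_nonneg (Gam d)
  linarith

/-- gaps at most `7/12` -/
theorem num_d {d : ℝ} (h0 : 0 ≤ d) (h1 : d ≤ 7 / 12) : 1 - gg (Gam d) ≤ 671 / 1000 * d := by
  rcases le_total d (52 / 100) with h | h
  · have a1 := gg_pos (Gam d)
    have a2 := near0 d
    nlinarith
  rcases le_total d (565 / 1000) with h2 | h2
  · exact cell' h0 h2 (by norm_num) v565 h (by norm_num) (by norm_num)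
  rcases le_total d (575 / 1000) with h3 | h3
  · exact cell' h0 h3 (by norm_num) v575 h2 (by norm_num) (by norm_num)
  · exact cell' h0 h1 (by norm_num) v583 h3 (by norm_num) (by norm_num)

/-- gaps at most `1/2` -/
theorem num_f1 {d : ℝ} (h0 : 0 ≤ d) (h1 : d ≤ 1 / 2) : 1 - gg (Gam d) ≤ 63 / 100 * d := by
  have a1 := gg_pos (Gam d)
  have a2 := near0 d
  nlinarith

/-! ### beyond `7/5` -/

private lemma concave_pos {f f' f'' : ℝ → ℝ} (h1 : ∀ x, HasDerivAt f (f' x) x) (h2 : ∀ x, HasDerivAt f' (f'' x) x) {a b : ℝ}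
    (h3 : ∀ x ∈ Icc a b, f'' x ≤ 0) (ha : 0 ≤ f a) (hb : 0 ≤ f b) {x : ℝ} (hx : x ∈ Icc a b) : 0 ≤ f x := by
  have e1 : deriv f = f' := funext fun x => (h1 x).deriv
  have e2 : deriv f' = f'' := funext fun x => (h2 x).deriv
  have hc : ConcaveOn ℝ (Icc a b) f := by
    refine concaveOn_of_deriv2_nonpos (convex_Icc a b) (fun x _ => (h1 x).continuousAt.continuousWithinAt)
      (fun x _ => (h1 x).differentiableAt.differentiableWithinAt) ?_ ?_
    · rw [e1]
      exact fun x _ => (h2 x).differentiableAt.differentiableWithinAt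
    · intro x hx
      have : deriv^[2] f x = f'' x := by
        simp only [Function.iterate_succ, Function.iterate_zero, Function.comp, id]
        rw [e1, e2]
      rw [this]
      exact h3 x (interior_subset hx)
  have hab : a ≤ b := hx.1.trans hx.2
  have := hc.min_le_of_mem_Icc (left_mem_Icc.2 hab) (right_mem_Icc.2 hab) hx
  exact (le_min ha hb).trans this

/-- the closed form at `θ = π d`, with a linear comparison -/
private noncomputable def HH (q A B θ : ℝ) : ℝ := Real.cos θ - 2 * q * θ * Real.sin θ - (2 * θ ^ 2 - 1) * (A - B * θ)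

private noncomputable def HH1 (q A B θ : ℝ) : ℝ :=
  -Real.sin θ - 2 * q * (Real.sin θ + θ * Real.cos θ) - (4 * A * θ - 6 * B * θ ^ 2 + B)

private noncomputable def HH2 (q A B θ : ℝ) : ℝ :=
  -Real.cos θ - 2 * q * (2 * Real.cos θ - θ * Real.sin θ) - (4 * A - 12 * B * θ)

private lemma HH_deriv (q A B θ : ℝ) : HasDerivAt (HH q A B) (HH1 q A B θ) θ := by
  unfold HH HH1
  have a1 := (Real.hasDerivAt_cos θ)
  have a2 := ((hasDerivAt_id θ).mul (Real.hasDerivAt_sin θ)).const_mul (2 * q)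
  have a3 : HasDerivAt (fun θ : ℝ => (2 * θ ^ 2 - 1) * (A - B * θ)) (4 * A * θ - 6 * B * θ ^ 2 + B) θ := by
    have b1 := ((hasDerivAt_pow 2 θ).const_mul 2).sub_const 1
    have b2 := ((hasDerivAt_id θ).const_mul B).const_sub A
    refine (b1.mul b2).congr_deriv ?_
    simp
    ring
  have a4 := (a1.sub a2).sub a3
  refine (a4.congr_deriv ?_).congr_of_eventuallyEq ?_
  · simp
  · refine Filter.Eventually.of_forall fun x => ?_
    simp
    ring

private lemma HH1_deriv (q A B θ : ℝ) : HasDerivAt (HH1 q A B) (HH2 q A B θ) θ := by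
  unfold HH1 HH2
  have a1 := (Real.hasDerivAt_sin θ).neg
  have a2 := ((Real.hasDerivAt_sin θ).add ((hasDerivAt_id θ).mul (Real.hasDerivAt_cos θ))).const_mul (2 * q)
  have a3 : HasDerivAt (fun θ : ℝ => 4 * A * θ - 6 * B * θ ^ 2 + B) (4 * A - 12 * B * θ) θ := by
    have b1 := (((hasDerivAt_id θ).const_mul (4 * A)).sub ((hasDerivAt_pow 2 θ).const_mul (6 * B))).add_const B
    refine b1.congr_deriv ?_
    simp
    ring
  have a4 := (a1.sub a2).sub a3
  refine (a4.congr_deriv ?_).congr_of_eventuallyEq ?_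
  · simp only [id_eq]
    ring
  · refine Filter.Eventually.of_forall fun x => ?_
    simp

/-- comparison with a linear function on `[a, b]`, from the end points: `d = 3/2 + s`, `θ = π d`, `x = π s` -/
private lemma lin {q A B θ : ℝ} : HH q A B θ = Real.sin (θ - 3 * Real.pi / 2) + 2 * q * θ * Real.cos (θ - 3 * Real.pi / 2) -
    (2 * θ ^ 2 - 1) * (A - B * θ) := by
  unfold HH
  have e : θ - 3 * Real.pi / 2 = θ - Real.pi - Real.pi / 2 := by ring
  rw [e, Real.sin_sub_pi_div_two, Real.cos_sub_pi_div_two, Real.cos_sub_pi, Real.sin_sub_pi]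
  ring

private lemma of_HH {d A B : ℝ} (hd : 1 ≤ d) (h : 0 ≤ HH (CMT - 1 / 2) A B (Real.pi * d)) : A - B * (Real.pi * d) ≤ -Gam d := by
  have k := Gam_closed d
  have hp := Real.pi_gt_three
  have g4 : 0 < 2 * (Real.pi * d) ^ 2 - 1 := by
    have : (3 : ℝ) ^ 2 ≤ (Real.pi * d) ^ 2 := pow_le_pow_left₀ (by norm_num) (by nlinarith) 2
    linarith
  refine le_of_mul_le_mul_left ?_ g4
  unfold HH at h
  have e : (2 * (Real.pi * d) ^ 2 - 1) * -Gam d = (1 - 2 * Real.pi ^ 2 * d ^ 2) * Gam d := by ring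
  rw [e, k]
  linarith

/-- the second derivative, `θ = 3π/2 + x` -/
private lemma HH2_neg {A B θ : ℝ} {b : ℝ} (hB : 0 ≤ B) (h2 : θ ≤ b) {s : ℝ}
    (h : 12 * B * b ≤ s + 4 * A) (hs : s ≤ 2 * (CMT - 1 / 2) * θ * Real.cos (θ - 3 * Real.pi / 2) +
      (1 + 4 * (CMT - 1 / 2)) * Real.sin (θ - 3 * Real.pi / 2)) : HH2 (CMT - 1 / 2) A B θ ≤ 0 := by
  have e : θ - 3 * Real.pi / 2 = θ - Real.pi - Real.pi / 2 := by ring
  rw [e, Real.sin_sub_pi_div_two, Real.cos_sub_pi_div_two, Real.cos_sub_pi, Real.sin_sub_pi] at hs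
  unfold HH2
  have f3 : 12 * B * θ ≤ 12 * B * b := mul_le_mul_of_nonneg_left h2 (by positivity)
  have e1 : -Real.cos θ - 2 * (CMT - 1 / 2) * (2 * Real.cos θ - θ * Real.sin θ) - (4 * A - 12 * B * θ) =
      -(2 * (CMT - 1 / 2) * θ * -Real.sin θ + (1 + 4 * (CMT - 1 / 2)) * -(-Real.cos θ)) - 4 * A + 12 * B * θ := by ring
  rw [e1]
  linarith

private lemma cos_le_x {x y : ℝ} (h0 : 0 ≤ x) (h1 : x ≤ y) (h2 : y ≤ 2) : 1 - y ^ 2 / 2 + y ^ 4 / 24 - y ^ 6 / 720 ≤ Real.cos x := by
  refine (cos_ge6 (h0.trans h1)).trans ?_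
  exact Real.cos_le_cos_of_nonneg_of_le_pi h0 (by linarith [Real.pi_gt_three]) h1

private lemma sin_ge_x {x y : ℝ} (h0 : 0 ≤ y) (h1 : y ≤ x) (h2 : x ≤ Real.pi / 2) : y - y ^ 3 / 6 + y ^ 5 / 120 - y ^ 7 / 5040 ≤ Real.sin x := by
  refine (sin_ge7 h0).trans ?_
  exact Real.sin_le_sin_of_le_of_le_pi_div_two (by linarith [Real.pi_pos]) h2 h1

/-- `[7/5, 3/2]` -/
private lemma neg1 {d : ℝ} (h1 : 7 / 5 ≤ d) (h2 : d ≤ 3 / 2) : 1745 / 10000 ≤ -Gam d := by
  have p1 := Real.pi_gt_d6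
  have p2 := Real.pi_lt_d6
  have q1 := q_lo9
  have q2 := q_hi9
  have k := of_HH (d := d) (A := 1745 / 10000) (B := 0) (by linarith) ?_
  · linarith
  refine concave_pos (a := 7 * Real.pi / 5) (b := 3 * Real.pi / 2) (HH_deriv _ _ _) (HH1_deriv _ _ _) (fun θ hθ => ?_) ?_ ?_ ?_
  · -- second derivative
    obtain ⟨t1, t2⟩ := hθ
    refine HH2_neg le_rfl t2 (s := 5) (by norm_num) ?_
    obtain ⟨x, hx⟩ : ∃ x, x = 3 * Real.pi / 2 - θ := ⟨_, rfl⟩
    have hx0 : 0 ≤ x := by rw [hx]; linarith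
    have hx1 : x ≤ 32 / 100 := by rw [hx]; linarith
    have e : θ - 3 * Real.pi / 2 = -x := by rw [hx]; ring
    rw [e, Real.cos_neg, Real.sin_neg]
    have c1 := cos_le_x hx0 hx1 (by norm_num)
    have s1 := Real.sin_le hx0
    have c2 : 94 / 100 ≤ Real.cos x := le_trans (by norm_num) c1
    have s2 : -(32 / 100) ≤ -Real.sin x := by linarith
    have g1 : 2 * (82749 / 100000) * (7 * (3141592 / 1000000) / 5) * (94 / 100) ≤ 2 * (CMT - 1 / 2) * θ * Real.cos x := by
      have a1 : 2 * (82749 / 100000) * (7 * (3141592 / 1000000) / 5) ≤ 2 * (CMT - 1 / 2) * θ :=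
        mul_le_mul (by linarith) (by linarith) (by norm_num) (by linarith)
      exact mul_le_mul a1 c2 (by norm_num) (le_trans (by norm_num) a1)
    have g2 : -((1 + 4 * (82751 / 100000)) * (32 / 100)) ≤ (1 + 4 * (CMT - 1 / 2)) * -Real.sin x := by
      have b1 : (1 + 4 * (CMT - 1 / 2)) * Real.sin x ≤ (1 + 4 * (82751 / 100000)) * (32 / 100) := by
        have b2 : (1 + 4 * (CMT - 1 / 2)) * Real.sin x ≤ (1 + 4 * (CMT - 1 / 2)) * (32 / 100) :=
          mul_le_mul_of_nonneg_left (by linarith) (by linarith)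
        have b3 : (1 + 4 * (CMT - 1 / 2)) * (32 / 100) ≤ (1 + 4 * (82751 / 100000)) * (32 / 100) :=
          mul_le_mul_of_nonneg_right (by linarith) (by norm_num)
        linarith
      linarith
    refine le_trans ?_ (add_le_add g1 g2)
    norm_num
  · -- left end
    rw [lin]
    have e : 7 * Real.pi / 5 - 3 * Real.pi / 2 = -(Real.pi / 10) := by ring
    rw [e, Real.cos_neg, Real.sin_neg]
    have c1 := cos_le_x (x := Real.pi / 10) (y := 31416 / 100000) (by positivity) (by linarith) (by norm_num)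
    have s1 := sin_le5 (x := Real.pi / 10) (by positivity)
    have s2 : Real.sin (Real.pi / 10) ≤ 30903 / 100000 := by
      refine s1.trans ?_
      obtain ⟨x, hx⟩ : ∃ x, x = Real.pi / 10 := ⟨_, rfl⟩
      rw [← hx]
      have x1 : 3141592 / 10000000 ≤ x := by rw [hx]; linarith
      have x2 : x ≤ 3141593 / 10000000 := by rw [hx]; linarith
      have x3 : (3141592 / 10000000 : ℝ) ^ 3 ≤ x ^ 3 := pow_le_pow_left₀ (by norm_num) x1 3
      have x5 : x ^ 5 ≤ (3141593 / 10000000) ^ 5 := pow_le_pow_left₀ (by linarith) x2 5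
      norm_num at x3 x5 ⊢
      linarith
    have c2 : 95105 / 100000 ≤ Real.cos (Real.pi / 10) := le_trans (by norm_num) c1
    have g1 : 2 * (82749 / 100000) * (7 * (3141592 / 1000000) / 5) * (95105 / 100000) ≤
        2 * (CMT - 1 / 2) * (7 * Real.pi / 5) * Real.cos (Real.pi / 10) := by
      have a1 : 2 * (82749 / 100000) * (7 * (3141592 / 1000000) / 5) ≤ 2 * (CMT - 1 / 2) * (7 * Real.pi / 5) :=
        mul_le_mul (by linarith) (by linarith) (by norm_num) (by linarith)
      exact mul_le_mul a1 c2 (by norm_num) (le_trans (by norm_num) a1)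
    have g2 : (7 * Real.pi / 5) ^ 2 ≤ (7 * (3141593 / 1000000) / 5) ^ 2 := pow_le_pow_left₀ (by positivity) (by linarith) 2
    norm_num at g1 g2 s2 ⊢
    linarith
  · rw [lin]
    rw [sub_self, Real.cos_zero, Real.sin_zero]
    have a1 : 2 * (82749 / 100000) * (3 * (3141592 / 1000000) / 2) ≤ 2 * (CMT - 1 / 2) * (3 * Real.pi / 2) :=
      mul_le_mul (by linarith) (by linarith) (by norm_num) (by linarith)
    have g2 : (3 * Real.pi / 2) ^ 2 ≤ (3 * (3141593 / 1000000) / 2) ^ 2 := pow_le_pow_left₀ (by positivity) (by linarith) 2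
    norm_num at a1 g2 ⊢
    linarith
  · constructor
    · nlinarith [Real.pi_pos]
    · nlinarith [Real.pi_pos]

/-- `[3/2, 15/8]` -/
private lemma neg2 {d : ℝ} (h1 : 3 / 2 ≤ d) (h2 : d ≤ 15 / 8) : 601 / 1000 - 285 / 1000 * d ≤ -Gam d := by
  have p1 := Real.pi_gt_d6
  have p2 := Real.pi_lt_d6
  have hp := Real.pi_pos
  have q1 := q_lo9
  have q2 := q_hi9
  have k := of_HH (d := d) (A := 601 / 1000) (B := 285 / 1000 / Real.pi) (by linarith) ?_
  · have e : 285 / 1000 / Real.pi * (Real.pi * d) = 285 / 1000 * d := by field_simp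
    rw [e] at k
    exact k
  refine concave_pos (a := 3 * Real.pi / 2) (b := 15 * Real.pi / 8) (HH_deriv _ _ _) (HH1_deriv _ _ _) (fun θ hθ => ?_) ?_ ?_ ?_
  · obtain ⟨t1, t2⟩ := hθ
    refine HH2_neg (by positivity) t2 (s := 43 / 10) ?_ ?_
    · have e : 12 * (285 / 1000 / Real.pi) * (15 * Real.pi / 8) = 12 * (285 / 1000) * (15 / 8) := by field_simp
      rw [e]
      norm_num
    · obtain ⟨x, hx⟩ : ∃ x, x = θ - 3 * Real.pi / 2 := ⟨_, rfl⟩
      have hx0 : 0 ≤ x := by rw [hx]; linarith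
      have hx1 : x ≤ Real.pi / 2 := by rw [hx]; linarith
      rw [← hx]
      have c1 : 1 - 2 / Real.pi * x ≤ Real.cos x := Real.one_sub_mul_le_cos hx0 hx1
      have s1 : 2 / Real.pi * x ≤ Real.sin x := Real.mul_le_sin hx0 hx1
      obtain ⟨t, ht⟩ : ∃ t, t = 2 / Real.pi * x := ⟨_, rfl⟩
      rw [← ht] at c1 s1
      have ht0 : 0 ≤ t := by rw [ht]; positivity
      have ht1 : t ≤ 1 := by
        rw [ht, div_mul_eq_mul_div, div_le_one hp]
        linarith
      have g1 : 43 / 10 * (1 - t) ≤ 2 * (CMT - 1 / 2) * θ * Real.cos x := by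
        have a1 : 43 / 10 ≤ 2 * (CMT - 1 / 2) * θ := by nlinarith
        exact mul_le_mul a1 c1 (by linarith) (by linarith)
      have g2 : 43 / 10 * t ≤ (1 + 4 * (CMT - 1 / 2)) * Real.sin x :=
        mul_le_mul (by linarith) s1 ht0 (by linarith)
      linarith
  · rw [lin]
    rw [sub_self, Real.cos_zero, Real.sin_zero]
    have e : 285 / 1000 / Real.pi * (3 * Real.pi / 2) = 285 / 1000 * (3 / 2) := by field_simp
    rw [e]
    have a1 : 2 * (82749 / 100000) * (3 * (3141592 / 1000000) / 2) ≤ 2 * (CMT - 1 / 2) * (3 * Real.pi / 2) :=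
      mul_le_mul (by linarith) (by linarith) (by norm_num) (by linarith)
    have g2 : (3 * Real.pi / 2) ^ 2 ≤ (3 * (3141593 / 1000000) / 2) ^ 2 := pow_le_pow_left₀ (by positivity) (by linarith) 2
    norm_num at a1 g2 ⊢
    linarith
  · rw [lin]
    have e : 285 / 1000 / Real.pi * (15 * Real.pi / 8) = 285 / 1000 * (15 / 8) := by field_simp
    have e' : 15 * Real.pi / 8 - 3 * Real.pi / 2 = 3 * Real.pi / 8 := by ring
    rw [e, e']
    have c1 := cos_le_x (x := 3 * Real.pi / 8) (y := 3 * (3141593 / 1000000) / 8) (by positivity) (by linarith) (by norm_num)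
    have s1 := sin_ge_x (x := 3 * Real.pi / 8) (y := 3 * (3141592 / 1000000) / 8) (by norm_num) (by linarith) (by linarith)
    have c2 : 3825 / 10000 ≤ Real.cos (3 * Real.pi / 8) := le_trans (by norm_num) c1
    have s2 : 9238 / 10000 ≤ Real.sin (3 * Real.pi / 8) := le_trans (by norm_num) s1
    have g1 : 2 * (82749 / 100000) * (15 * (3141592 / 1000000) / 8) * (3825 / 10000) ≤
        2 * (CMT - 1 / 2) * (15 * Real.pi / 8) * Real.cos (3 * Real.pi / 8) := by
      have a1 : 2 * (82749 / 100000) * (15 * (3141592 / 1000000) / 8) ≤ 2 * (CMT - 1 / 2) * (15 * Real.pi / 8) :=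
        mul_le_mul (by linarith) (by linarith) (by norm_num) (by linarith)
      exact mul_le_mul a1 c2 (by norm_num) (le_trans (by norm_num) a1)
    have g2 : (15 * Real.pi / 8) ^ 2 ≤ (15 * (3141593 / 1000000) / 8) ^ 2 := pow_le_pow_left₀ (by positivity) (by linarith) 2
    norm_num at g1 g2 s2 ⊢
    linarith
  · constructor
    · nlinarith [Real.pi_pos]
    · nlinarith [Real.pi_pos]

/-- a cell of `[3/2, 2]` -/
private lemma negc {d a b F : ℝ} (h1 : a ≤ d) (h2 : d ≤ b) (ha : 3 / 2 ≤ a) (hb : b ≤ 2) (hF : 0 ≤ F)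
    (hc : 0 ≤ 1 - (3141593 / 1000000 * (b - 3 / 2)) ^ 2 / 2 + (3141593 / 1000000 * (b - 3 / 2)) ^ 4 / 24 -
      (3141593 / 1000000 * (b - 3 / 2)) ^ 6 / 720)
    (h : F * (2 * (3141593 / 1000000 * b) ^ 2 - 1) ≤ 2 * (3141592 / 1000000 * a) * (82749 / 100000) *
      (1 - (3141593 / 1000000 * (b - 3 / 2)) ^ 2 / 2 + (3141593 / 1000000 * (b - 3 / 2)) ^ 4 / 24 -
      (3141593 / 1000000 * (b - 3 / 2)) ^ 6 / 720) + (3141592 / 1000000 * (a - 3 / 2) - (3141592 / 1000000 * (a - 3 / 2)) ^ 3 / 6 +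
      (3141592 / 1000000 * (a - 3 / 2)) ^ 5 / 120 - (3141592 / 1000000 * (a - 3 / 2)) ^ 7 / 5040)) : F ≤ -Gam d := by
  have p1 := Real.pi_gt_d6
  have p2 := Real.pi_lt_d6
  have hp := Real.pi_pos
  have q1 := q_lo9
  have q2 := q_hi9
  have k := of_HH (d := d) (A := F) (B := 0) (by linarith) ?_
  · linarith
  rw [lin]
  have e : Real.pi * d - 3 * Real.pi / 2 = Real.pi * (d - 3 / 2) := by ring
  rw [e]
  have c1 := cos_le_x (x := Real.pi * (d - 3 / 2)) (y := 3141593 / 1000000 * (b - 3 / 2)) (mul_nonneg hp.le (by linarith))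
    (mul_le_mul (by linarith) (by linarith) (by linarith) (by norm_num)) (by nlinarith)
  have s1 := sin_ge_x (x := Real.pi * (d - 3 / 2)) (y := 3141592 / 1000000 * (a - 3 / 2)) (mul_nonneg (by norm_num) (by linarith))
    (mul_le_mul (by linarith) (by linarith) (by linarith) hp.le) (by nlinarith)
  have g1 : 2 * (3141592 / 1000000 * a) * (82749 / 100000) *
      (1 - (3141593 / 1000000 * (b - 3 / 2)) ^ 2 / 2 + (3141593 / 1000000 * (b - 3 / 2)) ^ 4 / 24 -
      (3141593 / 1000000 * (b - 3 / 2)) ^ 6 / 720) ≤ 2 * (CMT - 1 / 2) * (Real.pi * d) * Real.cos (Real.pi * (d - 3 / 2)) := by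
    have a0 : 3141592 / 1000000 * a ≤ Real.pi * d := mul_le_mul (by linarith) h1 (by linarith) hp.le
    have a1 : 2 * (3141592 / 1000000 * a) * (82749 / 100000) ≤ 2 * (CMT - 1 / 2) * (Real.pi * d) := by
      have a2 : (3141592 / 1000000 * a) * (82749 / 100000) ≤ (Real.pi * d) * (CMT - 1 / 2) :=
        mul_le_mul a0 q1 (by norm_num) (mul_nonneg hp.le (by linarith))
      linarith
    exact mul_le_mul a1 c1 hc (le_trans (mul_nonneg (mul_nonneg (by norm_num) (mul_nonneg (by norm_num) (by linarith))) (by norm_num)) a1)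
  have g2 : (Real.pi * d) ^ 2 ≤ (3141593 / 1000000 * b) ^ 2 :=
    pow_le_pow_left₀ (mul_nonneg hp.le (by linarith)) (mul_le_mul (by linarith) h2 (by linarith) (by norm_num)) 2
  have g3 : (2 * (Real.pi * d) ^ 2 - 1) * F ≤ (2 * (3141593 / 1000000 * b) ^ 2 - 1) * F :=
    mul_le_mul_of_nonneg_right (by linarith) hF
  rw [zero_mul, sub_zero]
  linarith

/-- gaps at least `7/5` -/
theorem num_c {d : ℝ} (h1 : 7 / 5 ≤ d) : 1 - gg (Gam d) ≤ 231 / 2000 * d + 1111 / 2000 * (7 / 5) := by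
  rcases le_total d (3 / 2) with h2 | h2
  · have := gain' (by norm_num) (by norm_num) (neg1 h1 h2)
    linarith
  rcases le_total d (15 / 8) with h3 | h3
  · have a1 := neg2 h2 h3
    have a2 := gain' (t := 601 / 1000 - 285 / 1000 * d) (by linarith) (by linarith) a1
    nlinarith [sq_nonneg (d - 17533 / 10000)]
  rcases le_total d (19 / 10) with h4 | h4
  · have a1 : 54 / 1000 ≤ -Gam d := negc h3 h4 (by norm_num) (by norm_num) (by norm_num) (by norm_num) (by norm_num)
    have a2 := gain' (by norm_num) (by norm_num) a1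
    linarith
  rcases le_total d (1925 / 1000) with h5 | h5
  · have a1 : 44 / 1000 ≤ -Gam d := negc h4 h5 (by norm_num) (by norm_num) (by norm_num) (by norm_num) (by norm_num)
    have a2 := gain' (by norm_num) (by norm_num) a1
    linarith
  have := gg_nonneg (Gam d)
  linarith

/-- gaps at least `3/2` -/
theorem num_b {d : ℝ} (h1 : 3 / 2 ≤ d) : 1 - gg (Gam d) ≤ 3 / 20 * d + 12 / 25 * (3 / 2) := by
  rcases le_total d (15 / 8) with h3 | h3
  · have a1 := neg2 h1 h3
    have a2 := gain' (t := 601 / 1000 - 285 / 1000 * d) (by linarith) (by linarith) a1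
    nlinarith [sq_nonneg (d - 16471 / 10000)]
  have := gg_nonneg (Gam d)
  linarith

theorem num_e {d : ℝ} (h1 : 7 / 5 ≤ d) : 1 - gg (Gam d) ≤ 671 / 1000 * d := by
  have := num_c h1
  linarith

theorem num_f2 {d : ℝ} (h1 : 3 / 2 ≤ d) : 1 - gg (Gam d) ≤ 63 / 100 * d := by
  have := num_b h1
  linarith

end Pool.Agent.Helper96.WO
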